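import Pool.Agent.N483.KM.StmY
import Pool.Agent.H212R2.KLS.R4

/-!
# Poincaré inequality on balls (project KM of helper483; helper568)
-/

set_option autoImplicit false

namespace Pool.Agent.N568.KM

open MeasureTheory Set Filter Topology
open scoped ENNReal InnerProductSpace

/-- the Poincaré inequality on a ball for a log-concave weight -/
theorem pba {F : Type*} [NormedAddCommGroup F] [InnerProductSpace ℝ F] [FiniteDimensional ℝ F]
    [MeasurableSpace F] [BorelSpace F] (ν : Measure F) [ν.IsAddHaarMeasure] (w f : F → ℝ) (x0 : F)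
    (R : ℝ) (hR : 0 < R) (hw0 : ∀ x, 0 ≤ w x) (hwc : Continuous w)
    (hlc : ∀ x y, w x * w y ≤ w ((1 / 2 : ℝ) • (x + y)) ^ 2) (hf : ContDiff ℝ 1 f) :
    ∃ c : ℝ, ∫ x in Metric.closedBall x0 R, (f x - c) ^ 2 * w x ∂ν ≤
      2 * R ^ 2 * ∫ x in Metric.closedBall x0 R, ‖fderiv ℝ f x‖ ^ 2 * w x ∂ν := by
  obtain ⟨e, he⟩ : ∃ e : F → ℝ, e = fun x => Real.exp (-(‖x - x0‖ ^ 2 / (2 * R ^ 2))) := ⟨_, rfl⟩
  obtain ⟨g, hg⟩ : ∃ g : F → ℝ, g = fun x => w x * e x := ⟨_, rfl⟩
  obtain ⟨u, hu⟩ : ∃ u : F → ℝ, u = (Metric.closedBall x0 R).indicator g := ⟨_, rfl⟩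
  have hec : Continuous e := by
    rw [he]
    fun_prop
  have hgc : Continuous g := by
    rw [hg]
    exact hwc.mul hec
  have he0 : ∀ x, 0 < e x := fun x => by
    rw [he]
    exact Real.exp_pos _
  have he1 : ∀ x, e x ≤ 1 := fun x => by
    rw [he]
    refine Real.exp_le_one_iff.2 ?_
    have : 0 ≤ ‖x - x0‖ ^ 2 / (2 * R ^ 2) := by positivity
    linarith
  have hg0 : ∀ x, 0 ≤ g x := fun x => by
    rw [hg]
    exact mul_nonneg (hw0 x) (he0 x).le
  have hK : IsCompact (Metric.closedBall x0 R) := isCompact_closedBall x0 R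
  have h1 : ∀ x, 0 ≤ u x := fun x => by
    rw [hu]
    exact indicator_nonneg (fun y _ => hg0 y) x
  have h2 : Measurable u := by
    rw [hu]
    exact hgc.measurable.indicator Metric.isClosed_closedBall.measurableSet
  have h3 : ∃ B, ∀ x, u x ≤ B := by
    obtain ⟨B, hB⟩ := hK.exists_bound_of_continuousOn hgc.continuousOn
    refine ⟨max B 0, fun x => ?_⟩
    rw [hu]
    by_cases hx : x ∈ Metric.closedBall x0 R
    · rw [indicator_of_mem hx]
      exact ((le_abs_self _).trans (hB x hx)).trans (le_max_left _ _)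
    · rw [indicator_of_notMem hx]
      exact le_max_right _ _
  have h4 : Pool.Agent.H212R2.KLS.Bdd u := by
    refine ⟨R + ‖x0‖, fun x hx => ?_⟩
    rw [hu]
    refine indicator_of_notMem (fun hx' => ?_) _
    rw [mem_closedBall_iff_norm] at hx'
    have h5 : ‖x‖ ≤ ‖x - x0‖ + ‖x0‖ := by
      have := norm_add_le (x - x0) x0
      rwa [sub_add_cancel] at this
    linarith
  have h5 : ∀ x y, u x * u y ≤ (u ((1 / 2 : ℝ) • (x + y))) ^ 2 *
      Real.exp (-((R ^ 2)⁻¹ / 4 * ‖x - y‖ ^ 2)) := by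
    intro x y
    by_cases hx : x ∈ Metric.closedBall x0 R
    · by_cases hy : y ∈ Metric.closedBall x0 R
      · have hm : (1 / 2 : ℝ) • (x + y) ∈ Metric.closedBall x0 R := by
          rw [smul_add]
          exact (convex_closedBall x0 R) hx hy (by norm_num) (by norm_num) (by norm_num)
        rw [hu, indicator_of_mem hx, indicator_of_mem hy, indicator_of_mem hm, hg]
        simp only
        have hE : e x * e y = e ((1 / 2 : ℝ) • (x + y)) ^ 2 * Real.exp (-((R ^ 2)⁻¹ / 4 * ‖x - y‖ ^ 2)) *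
            Real.exp 0 := by
          rw [he]
          simp only
          rw [← Real.exp_add, ← Real.exp_nat_mul, ← Real.exp_add, ← Real.exp_add]
          congr 1
          have hp := parallelogram_law_with_norm ℝ (x - x0) (y - x0)
          have e1 : x - x0 - (y - x0) = x - y := by abel
          have e2 : x - x0 + (y - x0) = (2 : ℝ) • ((1 / 2 : ℝ) • (x + y) - x0) := by
            rw [smul_sub, smul_smul]
            norm_num
            rw [two_smul]
            abel
          rw [e1, e2, norm_smul] at hp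
          have e3 : ‖(2 : ℝ)‖ = 2 := by norm_num
          rw [e3] at hp
          push_cast
          field_simp
          nlinarith
        have hl := hlc x y
        have hp1 : 0 ≤ e x * e y := mul_nonneg (he0 x).le (he0 y).le
        calc w x * e x * (w y * e y) = w x * w y * (e x * e y) := by ring
          _ ≤ w ((1 / 2 : ℝ) • (x + y)) ^ 2 * (e x * e y) := mul_le_mul_of_nonneg_right hl hp1
          _ = _ := by
            rw [hE, Real.exp_zero]
            ring
      · rw [hu, indicator_of_notMem hy, mul_zero]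
        positivity
    · rw [hu, indicator_of_notMem hx, zero_mul]
      positivity
  obtain ⟨c, hc⟩ := Pool.Agent.H212R2.KLS.poincare_of_strong ν u h1 h2 h3 h4 (R ^ 2)⁻¹ (by positivity) h5
    f hf
  rw [inv_inv] at hc
  refine ⟨c, ?_⟩
  have hfc : Continuous (fderiv ℝ f) := hf.continuous_fderiv (by norm_num)
  have hint : ∀ φ : F → ℝ, ∫ x, φ x * u x ∂ν = ∫ x in Metric.closedBall x0 R, φ x * g x ∂ν := by
    intro φ
    rw [← integral_indicator Metric.isClosed_closedBall.measurableSet]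
    congr 1
    funext x
    rw [hu]
    by_cases hx : x ∈ Metric.closedBall x0 R
    · rw [indicator_of_mem hx, indicator_of_mem hx]
    · rw [indicator_of_notMem hx, indicator_of_notMem hx, mul_zero]
  rw [hint, hint] at hc
  have hInt : ∀ φ : F → ℝ, Continuous φ → IntegrableOn φ (Metric.closedBall x0 R) ν :=
    fun φ hφ => hφ.continuousOn.integrableOn_compact hK
  have hf1 : Continuous fun x => (f x - c) ^ 2 := (hf.continuous.sub continuous_const).pow 2
  have hf2 : Continuous fun x => ‖fderiv ℝ f x‖ ^ 2 := hfc.norm.pow 2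
  have hwu : ∀ x ∈ Metric.closedBall x0 R, w x ≤ Real.exp (1 / 2) * g x := by
    intro x hx
    rw [mem_closedBall_iff_norm] at hx
    have h6 : 1 ≤ Real.exp (1 / 2) * e x := by
      rw [he]
      simp only
      rw [← Real.exp_add]
      refine Real.one_le_exp ?_
      have h7 : ‖x - x0‖ ^ 2 ≤ R ^ 2 := pow_le_pow_left₀ (norm_nonneg _) hx 2
      have h8 : ‖x - x0‖ ^ 2 / (2 * R ^ 2) ≤ 1 / 2 := by
        rw [div_le_div_iff₀ (by positivity) (by norm_num)]
        linarith
      linarith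
    rw [hg]
    calc w x = w x * 1 := (mul_one _).symm
      _ ≤ w x * (Real.exp (1 / 2) * e x) := mul_le_mul_of_nonneg_left h6 (hw0 x)
      _ = _ := by ring
  have hexp : Real.exp (1 / 2) ≤ 2 := by
    have h6 : Real.exp (1 / 2) ^ 2 ≤ 2 ^ 2 := by
      rw [← Real.exp_nat_mul]
      have : ((2 : ℕ) : ℝ) * (1 / 2) = 1 := by norm_num
      rw [this]
      linarith [Real.exp_one_lt_d9]
    exact le_of_pow_le_pow_left₀ (by norm_num) (by norm_num) h6
  have hA : ∫ x in Metric.closedBall x0 R, (f x - c) ^ 2 * w x ∂ν ≤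
      Real.exp (1 / 2) * ∫ x in Metric.closedBall x0 R, (f x - c) ^ 2 * g x ∂ν := by
    rw [← integral_const_mul]
    refine setIntegral_mono_on (hInt _ (hf1.mul hwc)) (hInt _ (continuous_const.mul (hf1.mul hgc)))
      Metric.isClosed_closedBall.measurableSet fun x hx => ?_
    have h6 := mul_le_mul_of_nonneg_left (hwu x hx) (sq_nonneg (f x - c))
    linarith
  have hB : ∫ x in Metric.closedBall x0 R, ‖fderiv ℝ f x‖ ^ 2 * g x ∂ν ≤
      ∫ x in Metric.closedBall x0 R, ‖fderiv ℝ f x‖ ^ 2 * w x ∂ν := by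
    refine setIntegral_mono_on (hInt _ (hf2.mul hgc)) (hInt _ (hf2.mul hwc))
      Metric.isClosed_closedBall.measurableSet fun x _ => ?_
    refine mul_le_mul_of_nonneg_left ?_ (sq_nonneg _)
    rw [hg]
    calc w x * e x ≤ w x * 1 := mul_le_mul_of_nonneg_left (he1 x) (hw0 x)
      _ = w x := mul_one _
  have hB0 : 0 ≤ ∫ x in Metric.closedBall x0 R, ‖fderiv ℝ f x‖ ^ 2 * w x ∂ν :=
    integral_nonneg fun x => mul_nonneg (sq_nonneg _) (hw0 x)
  have he2 := Real.exp_pos (1 / 2)
  calc ∫ x in Metric.closedBall x0 R, (f x - c) ^ 2 * w x ∂ν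
      ≤ Real.exp (1 / 2) * ∫ x in Metric.closedBall x0 R, (f x - c) ^ 2 * g x ∂ν := hA
    _ ≤ Real.exp (1 / 2) * (R ^ 2 * ∫ x in Metric.closedBall x0 R, ‖fderiv ℝ f x‖ ^ 2 * g x ∂ν) :=
        mul_le_mul_of_nonneg_left hc he2.le
    _ ≤ Real.exp (1 / 2) * (R ^ 2 * ∫ x in Metric.closedBall x0 R, ‖fderiv ℝ f x‖ ^ 2 * w x ∂ν) := by
        gcongr
    _ ≤ 2 * (R ^ 2 * ∫ x in Metric.closedBall x0 R, ‖fderiv ℝ f x‖ ^ 2 * w x ∂ν) := by
        gcongr
    _ = _ := by ring

/-- Y1 -/
theorem t_PBA : Pool.Agent.N483.KM.S_PBA := by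
  intro k w f x0 R hR hw hf
  refine pba volume w f x0 R hR (fun x => (hw.pos x).le) hw.cont (fun x y => ?_) hf.diff
  have h := hw.lc x y (1 / 2) (by norm_num) (by norm_num)
  have e1 : (1 - 1 / 2 : ℝ) = 1 / 2 := by norm_num
  rw [e1, ← smul_add, ← Real.sqrt_eq_rpow, ← Real.sqrt_eq_rpow, ← Real.sqrt_mul (hw.pos x).le] at h
  have h0 : 0 ≤ w x * w y := mul_nonneg (hw.pos x).le (hw.pos y).le
  have h1 := pow_le_pow_left₀ (Real.sqrt_nonneg _) h 2
  rwa [Real.sq_sqrt h0] at h1

end Pool.Agent.N568.KM
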